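import Mathlib
import Pool.Agent.Y50.RD.Stm

/-!
Project RD: edges at machine words (helper93).
-/

set_option autoImplicit false

namespace Pool.Agent.Y93.RD

open Turing CategoryTheory
open Pool.Agent.H333R3.DG Pool.Agent.Y50.RD

section Lem

variable {Γ Λ : Type} [Inhabited Γ] [Inhabited Λ] [Fintype Γ] [Fintype Λ]

omit [Inhabited Γ] [Inhabited Λ] in
lemma split_map {W : List (Sy Γ Λ)} {a U b : List ℕ} (h : W.map en = a ++ U ++ b) :
    ∃ A C B : List (Sy Γ Λ), W = A ++ C ++ B ∧ a = A.map en ∧ U = C.map en ∧ b = B.map en := by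
  obtain ⟨D, B, hW, hD, hB⟩ := List.map_eq_append_iff.1 h
  obtain ⟨A, C, hD', hA, hC⟩ := List.map_eq_append_iff.1 hD
  refine ⟨A, C, B, ?_, hA.symm, hC.symm, hB.symm⟩
  rw [hW, hD']

omit [Inhabited Γ] [Inhabited Λ] in
lemma q_side {C : List (Sy Γ Λ)} {u : List ℕ} (hu : u ≠ [])
    (h : u.map (sft (nm Γ Λ)) = C.map en) : False := by
  obtain ⟨k, hk⟩ := List.exists_mem_of_ne_nil u hu
  have h1 : sft (nm Γ Λ) k ∈ C.map en := by
    rw [← h]
    exact List.mem_map_of_mem hk
  obtain ⟨s, -, hs⟩ := List.mem_map.1 h1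
  have h2 := en_lt s
  unfold sft nm at hs
  omega

lemma rule_cases (M : TM0.Machine Γ Λ) (Q : Pres) (v : List ℕ) {r : List ℕ × List ℕ}
    (hr : r ∈ (pq M Q v).2) :
    (∃ (l : Λ) (i : Fin 3) (y x : TL Γ), r = ((lhs l i y x).map en, rhq M v l i y x)) ∨
    ∃ s ∈ Q.2, r = (s.1.map (sft (nm Γ Λ)), s.2.map (sft (nm Γ Λ))) := by
  rcases List.mem_append.1 hr with h | h
  · obtain ⟨p, -, rfl⟩ := List.mem_map.1 h
    exact Or.inl ⟨_, _, _, _, rfl⟩
  · obtain ⟨s, hs, rfl⟩ := List.mem_map.1 h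
    exact Or.inr ⟨s, hs, rfl⟩

end Lem

theorem t : S_w1 := by
  intro Γ Λ _ _ _ _ M Q v hQ hv x y W hx _ _
  refine ⟨?_, ?_⟩
  · rintro ⟨a, b, r, mem, src, tgt⟩
    rw [hx] at src
    obtain ⟨A, C, B, hW, hA, hC, hB⟩ := split_map src
    rcases rule_cases M Q v mem with ⟨l, i, y', x', rfl⟩ | ⟨s, hs, rfl⟩
    · refine ⟨A, B, l, i, y', x', ?_, hA, hB, rfl⟩
      rw [hW, map_en_inj hC]
    · exact (q_side (hQ s hs).1.1 hC).elim
  · rintro ⟨a, b, r, mem, src, tgt⟩
    rw [hx] at tgt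
    obtain ⟨A, C, B, hW, hA, hC, hB⟩ := split_map tgt
    rcases rule_cases M Q v mem with ⟨l, i, y', x', rfl⟩ | ⟨s, hs, rfl⟩
    · rcases hM : M l (rd x') with _ | p
      · exfalso
        have h1 : nm Γ Λ ∈ rhq M v l i y' x' := by
          unfold rhq
          rw [hM]
          simp
        have h2 : nm Γ Λ ∈ C.map en := by
          rw [← hC]
          exact h1
        obtain ⟨s, -, hs⟩ := List.mem_map.1 h2
        have h3 := en_lt s
        unfold nm at hs
        omega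
      · have h1 : rhq M v l i y' x' = (act p.1 i y' x' p.2).map en := by
          unfold rhq
          rw [hM]
        have h2 : C = act p.1 i y' x' p.2 := by
          apply map_en_inj
          rw [← hC]
          exact h1
        refine ⟨A, B, l, i, y', x', p, hM, ?_, hA, hB, ?_⟩
        · rw [hW, h2]
        · show ((lhs l i y' x').map en, rhq M v l i y' x') = _
          rw [h1]
    · exact (q_side (hQ s hs).2.1.1 hC).elim

end Pool.Agent.Y93.RD
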